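import Pool.Agent.Work.MP_3125f4_gt.G.Main
import Pool.Agent.Work.MP_3125f4_gt.Main

/-!
# MP_3125f4_gt : ClosureCriterion

Definitions used (in `Pool/Agent/Work/MP_3125f4_gt/Defs.lean` and `G/GDefs.lean`):
`CellularLindelof X` (every cellular family is met by a Lindelöf subspace), `DisjSep A` (the
points of `A` are separated by pairwise disjoint open sets), `LindelofLE K ν` (every open family
covering `K` has a subfamily of size at most `ν` covering `K`), `Approximable ν K e` (the ring
homomorphism `e : C(K, ℝ) → ℝ` is, on each set of at most `ν` functions, a limit of evaluations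
along a sequence in `K`), and `kap` (the least cardinal `κ` with `2 ^ κ > 𝔠`).
-/

open Set Cardinal Topology

universe u

namespace Pool.Agent.Results.MP_3125f4_gt.ClosureCriterion

open MP3125f4

/-- Let `X` be a normal (`T1`) first countable cellular-Lindelöf space and `Z` a dense subset.
(1) Let `κ` be the least cardinal with `2 ^ κ > 𝔠`. If for every separated `A ⊆ Z` with
`#A < κ` the closure of `A` has Lindelöf number at most `κ` or at most `𝔠` `κ`-approximable real
characters, then `#X ≤ 𝔠`.
(2) More generally, if `ν` is regular uncountable, `2 ≤ θ`, `θ ^ μ ≤ θ` for all `μ < ν`, and the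
closure of every separated `A ⊆ Z` with `#A < ν` has Lindelöf number at most `ν` or at most `θ`
`ν`-approximable real characters, then `#X ≤ θ`.
(3) If `𝔠` is regular then `#X ≤ 2 ^< 𝔠`. -/
theorem result :
    ∀ (X : Type u) [TopologicalSpace X] [T1Space X] [NormalSpace X] [FirstCountableTopology X],
      CellularLindelof X → ∀ Z : Set X, Dense Z →
        ((∀ A ⊆ Z, DisjSep A → #A < kap → LindelofLE (closure A) kap ∨
            #{e : C(closure A, ℝ) →+* ℝ | Approximable kap (closure A) e} ≤ 𝔠) → #X ≤ 𝔠) ∧
        (∀ ν θ : Cardinal.{u}, ν.IsRegular → ℵ₀ < ν → 2 ≤ θ → (∀ μ < ν, θ ^ μ ≤ θ) →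
          (∀ A ⊆ Z, DisjSep A → #A < ν → LindelofLE (closure A) ν ∨
            #{e : C(closure A, ℝ) →+* ℝ | Approximable ν (closure A) e} ≤ θ) → #X ≤ θ) ∧
        ((𝔠 : Cardinal.{u}).IsRegular → #X ≤ 2 ^< 𝔠) := by
  intro X _ _ _ _ hX Z hZ
  exact ⟨fun hL => closure_criterion hX hZ arith_kap hL,
    fun ν θ hν hω h2 hθ hL => closure_criterion hX hZ ⟨hν, hω, h2, hθ⟩ hL,
    fun hc => mk_le_powerlt hX hc⟩

end Pool.Agent.Results.MP_3125f4_gt.ClosureCriterion
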