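import Pool.Agent.Work.MP_3125f4_gt.Covering
import Pool.Agent.Work.MP_3125f4_gt.G.Main

/-!
# MP_3125f4_gt : CoveringProperties

Definitions used (in `Pool/Agent/Work/MP_3125f4_gt/Defs.lean` and `CovDefs.lean`):
`CellularLindelof X`, `DisjSep A` (the points of `A` are separated by pairwise disjoint open
sets), `kap` (the least cardinal `κ` with `2 ^ κ > 𝔠`), and the covering properties
`SubmetaLindelof K`, `DSpace K`, `LindelofByExtent K`, `RealcompactSet K` of a subset `K`.
-/

open Set Cardinal Topology

universe u

namespace Pool.Agent.Results.MP_3125f4_gt.CoveringProperties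

open MP3125f4

/-- Let `X` be a normal (`T1`) first countable cellular-Lindelöf space and `Z` a dense subset.
Suppose that the closure of every separated `A ⊆ Z` with `#A < κ` (`κ` least with `2 ^ κ > 𝔠`) is
submeta-Lindelöf, or a `D`-space, or realcompact, or every open cover of it has a subcover of
size at most that of a countable union of its closed discrete subsets (or countable).
Then `#X ≤ 𝔠`. -/
theorem result :
    ∀ (X : Type u) [TopologicalSpace X] [T1Space X] [NormalSpace X] [FirstCountableTopology X],
      CellularLindelof X → ∀ Z : Set X, Dense Z →
        (∀ A ⊆ Z, DisjSep A → #A < kap →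
          SubmetaLindelof (closure A) ∨ DSpace (closure A) ∨ RealcompactSet (closure A) ∨
            LindelofByExtent (closure A)) →
        #X ≤ 𝔠 := by
  intro X _ _ _ _ hX Z hZ h
  have hT4 : T4Space X := {}
  refine closure_criterion hX hZ arith_kap fun A hAZ hA hAk => ?_
  rcases h A hAZ hA hAk with h | h | h | h
  · exact Or.inl (lindelofLE_closure hAk
      (lindelofByExtent_of_submetaLindelof isClosed_closure h))
  · exact Or.inl (lindelofLE_closure hAk (lindelofByExtent_of_dSpace h))
  · refine Or.inr ?_
    choose x hx using h
    have hinj : Function.Injective x := by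
      intro e e' hee
      ext f
      rw [hx e f, hx e' f, hee]
    refine (mk_subtype_le _).trans ((mk_le_of_injective hinj).trans ?_)
    exact arith_kap.mk_closure_le (hAk.le.trans kap_le_cont)
  · exact Or.inl (lindelofLE_closure hAk h)

end Pool.Agent.Results.MP_3125f4_gt.CoveringProperties
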