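import Pool.Agent.Work.MP_3125f4_gt.WeakDiamond

/-!
# MP_3125f4_gt : JonesLemma

Definitions used (in `Pool/Agent/Work/MP_3125f4_gt/Defs.lean` and `CovDefs.lean`):
`CellularLindelof X` and the covering properties `SubmetaLindelof K`, `DSpace K`,
`LindelofByExtent K` of a subset `K`.
-/

open Set Cardinal Topology

universe u

namespace Pool.Agent.Results.MP_3125f4_gt.JonesLemma

open MP3125f4

/-- Let `X` be a normal (`T1`) first countable cellular-Lindelöf space.
(1) Every closed discrete subset `E` of `X` satisfies `2 ^ #E ≤ 𝔠`.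
(2) If `X` is submeta-Lindelöf or a `D`-space or has the more general property
`LindelofByExtent`, then every open cover of `X` has a subcover `W` with `2 ^ #W ≤ 𝔠`.
(3) If moreover `2 ^ ℵ₁ > 𝔠`, then such an `X` is Lindelöf. -/
theorem result :
    ∀ (X : Type u) [TopologicalSpace X] [T1Space X] [NormalSpace X] [FirstCountableTopology X],
      CellularLindelof X →
        (∀ E : Set X, IsClosed E → DiscreteTopology E → (2 : Cardinal.{u}) ^ #E ≤ 𝔠) ∧
        (SubmetaLindelof (Set.univ : Set X) ∨ DSpace (Set.univ : Set X) ∨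
            LindelofByExtent (Set.univ : Set X) →
          (∀ U : Set (Set X), (∀ u ∈ U, IsOpen u) → ⋃₀ U = Set.univ →
            ∃ W ⊆ U, (2 : Cardinal.{u}) ^ #W ≤ 𝔠 ∧ ⋃₀ W = Set.univ) ∧
          ((𝔠 : Cardinal.{u}) < 2 ^ ℵ₁ → LindelofSpace X)) := by
  intro X _ _ _ _ hX
  have h1 : ∀ E : Set X, IsClosed E → DiscreteTopology E → #E < kap := fun E hE hd =>
    mk_closed_discrete_lt_kap hX hE hd
  refine ⟨fun E hE hd => two_pow_le_of_lt_kap (h1 E hE hd), fun h => ?_⟩
  have h2 : LindelofByExtent (Set.univ : Set X) := by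
    rcases h with h | h | h
    · exact lindelofByExtent_of_submetaLindelof isClosed_univ h
    · exact lindelofByExtent_of_dSpace h
    · exact h
  have h3 : ∀ U : Set (Set X), (∀ u ∈ U, IsOpen u) → ⋃₀ U = Set.univ →
      ∃ W ⊆ U, #W < (kap : Cardinal.{u}) ∧ ⋃₀ W = Set.univ := by
    intro U hU hcov
    obtain ⟨W, hWU, hcovW, D, hD, hWD⟩ := h2 U hU hcov.ge
    refine ⟨W, hWU, ?_, Set.univ_subset_iff.1 hcovW⟩
    have h4 : #(⋃ n, D n) < (kap : Cardinal.{u}) := by
      have h5 : (⋃ n, D n) = ⋃ n : ULift.{u} ℕ, D n.down := by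
        ext x
        simp
      rw [h5, card_iUnion_lt_iff_forall_of_isRegular isRegular_kap
        (by simpa using aleph0_lt_kap)]
      exact fun n => h1 _ (hD n.down).2.1 (hD n.down).2.2
    exact hWD.trans_lt (max_lt aleph0_lt_kap h4)
  refine ⟨fun U hU hcov => ?_, fun hc => ?_⟩
  · obtain ⟨W, hWU, hW, hcovW⟩ := h3 U hU hcov
    exact ⟨W, hWU, two_pow_le_of_lt_kap hW, hcovW⟩
  · refine ⟨?_⟩
    refine isLindelof_of_countable_subcover fun {ι} U hU hcov => ?_
    obtain ⟨W, hWU, hW, hcovW⟩ := h3 (Set.range U) (by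
      rintro _ ⟨i, rfl⟩
      exact hU i) (by
      rw [Set.sUnion_range]
      exact Set.univ_subset_iff.1 hcov)
    have hkap : (kap : Cardinal.{u}) ≤ ℵ₁ := csInf_le' hc
    have hWc : W.Countable := by
      rw [← le_aleph0_iff_set_countable, ← Order.lt_succ_iff, succ_aleph0]
      exact hW.trans_le hkap
    have : Countable W := hWc.to_subtype
    choose i hi using fun w : W => hWU w.2
    refine ⟨Set.range i, Set.countable_range i, ?_⟩
    intro x _
    have hx : x ∈ ⋃₀ W := by rw [hcovW]; exact Set.mem_univ x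
    obtain ⟨w, hw, hxw⟩ := hx
    refine Set.mem_iUnion₂.2 ⟨i ⟨w, hw⟩, ⟨_, rfl⟩, ?_⟩
    rw [hi ⟨w, hw⟩]
    exact hxw

end Pool.Agent.Results.MP_3125f4_gt.JonesLemma
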