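import Pool.Agent.Work.MP_3125f4_gt.G.Kurepa

/-!
# MP_3125f4_gt : KurepaFamilies

Definitions used (in `Pool/Agent/Work/MP_3125f4_gt/Defs.lean`): `CellularLindelof X` and
`kap` (the least cardinal `κ` with `2 ^ κ > 𝔠`).
-/

open Set Cardinal Topology

universe u

namespace Pool.Agent.Results.MP_3125f4_gt.KurepaFamilies

open MP3125f4

/-- Let `X` be a normal (`T1`) first countable cellular-Lindelöf space and let `κ` be the least
cardinal with `2 ^ κ > 𝔠`.
(1) If every family of subsets of a set of size at most `𝔠` which has at most `𝔠` traces on each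
subset of size at most `κ` has size at most `𝔠`, then `#X ≤ 𝔠`.
(2) If `𝔠 = κ⁺` and every family of subsets of the well-ordered set `𝔠` with at most `𝔠` traces on
each proper initial segment has size at most `𝔠` (that is: every tree of height and size `𝔠` has
at most `𝔠` cofinal branches), then `#X ≤ 𝔠`. -/
theorem result :
    ∀ (X : Type u) [TopologicalSpace X] [T1Space X] [NormalSpace X] [FirstCountableTopology X],
      CellularLindelof X →
        ((∀ (I : Type u) (F : Set (Set I)), #I ≤ 𝔠 →
            (∀ S : Set I, #S ≤ kap → #((fun B => B ∩ S) '' F) ≤ 𝔠) → #F ≤ 𝔠) → #X ≤ 𝔠) ∧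
        ((𝔠 : Cardinal.{u}) = Order.succ kap →
          (∀ F : Set (Set (𝔠 : Cardinal.{u}).ord.ToType),
            (∀ a, #((fun B => B ∩ Set.Iio a) '' F) ≤ 𝔠) → #F ≤ 𝔠) → #X ≤ 𝔠) := by
  intro X _ _ _ _ hX
  refine ⟨fun h => mk_le_of_no_kurepa hX arith_kap h, fun hs h => ?_⟩
  refine mk_le_of_no_kurepa hX arith_kap ?_
  rw [hs] at h ⊢
  exact set_families_of_trees h

end Pool.Agent.Results.MP_3125f4_gt.KurepaFamilies
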